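import Pool.Agent.W785.FD.Stms

/-! Sobolev inequality for functions vanishing outside a small ball. -/

set_option autoImplicit false

open MeasureTheory Metric Set Filter
open scoped ENNReal NNReal Topology

namespace Pool.Agent.W597.FD.Sob

open Pool.Agent.W785.FD

theorem main {X : Type*} [MetricSpace X] [ProperSpace X] [MeasurableSpace X] [BorelSpace X]
    (μ : Measure X) (p C L D : ℝ) (hD : Dbl μ D) (h : PI μ p C L) (h1 : S_PPP μ p)
    (h2 : S_ANN X) : S_SOB μ p := by
  obtain ⟨K', hK', hPPP⟩ := h1 C L h.nonneg h.one_le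
  have hp := h.one_lt
  have hD1 := hD.one_le
  refine ⟨2 ^ (p - 1) * (1 + D ^ 4) * (K' * 8 ^ p), by positivity, fun x => ?_⟩
  obtain ⟨r0, hr0, hz⟩ := h2 x
  refine ⟨r0, hr0, fun r hr hr' u g hu h0 h1 hug hv => ?_⟩
  obtain ⟨z, hzx⟩ := hz r hr hr'
  have hLI : LI μ u := by
    intro y s
    refine Measure.integrableOn_of_bounded (M := 1) (hD.fin y s).ne hu.aestronglyMeasurable ?_
    refine Eventually.of_forall fun w => ?_
    rw [Real.norm_eq_abs, abs_of_nonneg (h0 w)]
    exact h1 w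
  set m := mean μ u x (8 * r) with hm
  have hm0 : 0 ≤ m := by
    rw [hm]
    unfold mean
    rw [setAverage_eq]
    exact smul_nonneg (by positivity) (integral_nonneg fun y => h0 y)
  have hI := hPPP u g hLI hug.1 (h.poin u g hLI hug) x (8 * r) (by positivity)
  rw [← hm] at hI
  set I := ∫⁻ y in ball x (8 * r), (ENNReal.ofReal |u y - m|) ^ p ∂μ with hIdef
  have hI2 : I ≤ ENNReal.ofReal (K' * (8 * r) ^ p) * ∫⁻ y, g y ^ p ∂μ :=
    hI.trans (mul_le_mul' le_rfl (setLIntegral_le_lintegral _ _))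
  -- the small ball
  have hsub1 : ball z r ⊆ ball x (8 * r) := by
    intro y hy
    rw [mem_ball] at hy ⊢
    have := dist_triangle y z x
    linarith
  have hsub2 : ball x (8 * r) ⊆ ball z (2 * (2 * (2 * (2 * r)))) := by
    intro y hy
    rw [mem_ball] at hy ⊢
    have := dist_triangle y x z
    rw [dist_comm x z] at this
    linarith
  have huz : ∀ y ∈ ball z r, u y = 0 := by
    intro y hy
    apply hv
    intro hy2
    rw [mem_ball] at hy hy2
    have := dist_triangle z y x
    rw [dist_comm z y] at this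
    linarith
  have hmI : ENNReal.ofReal m ^ p * μ (ball z r) ≤ I := by
    calc ENNReal.ofReal m ^ p * μ (ball z r) = ∫⁻ y in ball z r, ENNReal.ofReal m ^ p ∂μ := by
          rw [setLIntegral_const]
      _ = ∫⁻ y in ball z r, (ENNReal.ofReal |u y - m|) ^ p ∂μ := by
          refine setLIntegral_congr_fun measurableSet_ball fun y hy => ?_
          rw [huz y hy, zero_sub, abs_neg, abs_of_nonneg hm0]
      _ ≤ I := lintegral_mono_set hsub1
  have hdb : μ (ball x (8 * r)) ≤ ENNReal.ofReal (D ^ 4) * μ (ball z r) := by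
    refine (measure_mono hsub2).trans ?_
    have d1 := hD.dbl z r hr
    have d2 := hD.dbl z (2 * r) (by positivity)
    have d3 := hD.dbl z (2 * (2 * r)) (by positivity)
    have d4 := hD.dbl z (2 * (2 * (2 * r))) (by positivity)
    calc μ (ball z (2 * (2 * (2 * (2 * r))))) ≤ ENNReal.ofReal D * (ENNReal.ofReal D *
          (ENNReal.ofReal D * (ENNReal.ofReal D * μ (ball z r)))) := by
          refine d4.trans (mul_le_mul' le_rfl (d3.trans (mul_le_mul' le_rfl
            (d2.trans (mul_le_mul' le_rfl d1)))))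
      _ = ENNReal.ofReal (D ^ 4) * μ (ball z r) := by
          rw [ENNReal.ofReal_pow (by linarith)]; ring
  have hmQ : ENNReal.ofReal m ^ p * μ (ball x (8 * r)) ≤ ENNReal.ofReal (D ^ 4) * I := by
    calc ENNReal.ofReal m ^ p * μ (ball x (8 * r)) ≤
          ENNReal.ofReal m ^ p * (ENNReal.ofReal (D ^ 4) * μ (ball z r)) := mul_le_mul' le_rfl hdb
      _ = ENNReal.ofReal (D ^ 4) * (ENNReal.ofReal m ^ p * μ (ball z r)) := by ring
      _ ≤ _ := mul_le_mul' le_rfl hmI
  -- the whole integral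
  have hQ : ∫⁻ y, (ENNReal.ofReal (u y)) ^ p ∂μ =
      ∫⁻ y in ball x (8 * r), (ENNReal.ofReal (u y)) ^ p ∂μ := by
    rw [← lintegral_indicator measurableSet_ball]
    refine lintegral_congr fun y => ?_
    by_cases hy : y ∈ ball x (8 * r)
    · rw [indicator_of_mem hy]
    · rw [indicator_of_notMem hy, hv y, ENNReal.ofReal_zero, ENNReal.zero_rpow_of_pos (by linarith)]
      intro hy2
      exact hy (ball_subset_ball (by linarith) hy2)
  have hpt : ∀ y, (ENNReal.ofReal (u y)) ^ p ≤
      2 ^ (p - 1) * ((ENNReal.ofReal |u y - m|) ^ p + (ENNReal.ofReal m) ^ p) := by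
    intro y
    refine le_trans ?_ (ENNReal.rpow_add_le_mul_rpow_add_rpow _ _ hp.le)
    refine ENNReal.rpow_le_rpow ?_ (by linarith)
    rw [← ENNReal.ofReal_add (abs_nonneg _) hm0]
    apply ENNReal.ofReal_le_ofReal
    have := le_abs_self (u y - m)
    linarith
  have h2p : (2 : ℝ≥0∞) ^ (p - 1) = ENNReal.ofReal (2 ^ (p - 1)) := by
    rw [← ENNReal.ofReal_rpow_of_pos (by norm_num)]; norm_num
  calc ∫⁻ y, (ENNReal.ofReal (u y)) ^ p ∂μ
      = ∫⁻ y in ball x (8 * r), (ENNReal.ofReal (u y)) ^ p ∂μ := hQ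
    _ ≤ ∫⁻ y in ball x (8 * r), 2 ^ (p - 1) * ((ENNReal.ofReal |u y - m|) ^ p +
          (ENNReal.ofReal m) ^ p) ∂μ := lintegral_mono hpt
    _ = 2 ^ (p - 1) * (I + (ENNReal.ofReal m) ^ p * μ (ball x (8 * r))) := by
        rw [lintegral_const_mul' _ _ (by rw [h2p]; exact ENNReal.ofReal_ne_top),
          lintegral_add_right _ measurable_const, setLIntegral_const]
    _ ≤ 2 ^ (p - 1) * (I + ENNReal.ofReal (D ^ 4) * I) :=
        mul_le_mul' le_rfl (add_le_add le_rfl hmQ)
    _ = ENNReal.ofReal (2 ^ (p - 1) * (1 + D ^ 4)) * I := by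
        rw [ENNReal.ofReal_mul (by positivity), ENNReal.ofReal_add (by norm_num) (by positivity),
          ← h2p, ENNReal.ofReal_one]
        ring
    _ ≤ ENNReal.ofReal (2 ^ (p - 1) * (1 + D ^ 4)) *
          (ENNReal.ofReal (K' * (8 * r) ^ p) * ∫⁻ y, g y ^ p ∂μ) := mul_le_mul' le_rfl hI2
    _ = ENNReal.ofReal (2 ^ (p - 1) * (1 + D ^ 4) * (K' * 8 ^ p) * r ^ p) *
          ∫⁻ y, g y ^ p ∂μ := by
        rw [← mul_assoc, ← ENNReal.ofReal_mul (by positivity),
          Real.mul_rpow (by norm_num) hr.le]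
        congr 2
        ring

end Pool.Agent.W597.FD.Sob
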